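import Mathlib

-- part Pool.Agent.P.MP_cfb0df_co.Entropy
section

set_option autoImplicit false

open Finset

namespace Pool.Agent.P.MP_cfb0df_co

/-- log-sum inequality in a flexible form -/
theorem gibbs {ι : Type} [Fintype ι] (A B l : ι → ℝ) (s t : ℝ)
    (hA : ∀ i, 0 ≤ A i) (hB : ∀ i, 0 ≤ B i)
    (h : ∀ i, 0 < A i → 0 < B i ∧ l i ≤ Real.log (B i) - Real.log (A i))
    (hs : ∑ i, A i = s) (ht : ∑ i, B i ≤ t) :
    ∑ i, A i * l i ≤ s * (Real.log t - Real.log s) ∧ (0 < s → 0 < t) := by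
  by_cases h0 : ∃ i, 0 < A i
  · obtain ⟨i0, hi0⟩ := h0
    have hspos : 0 < s := by
      rw [← hs]
      exact lt_of_lt_of_le hi0 (Finset.single_le_sum (fun i _ => hA i) (Finset.mem_univ i0))
    have htpos : 0 < t := by
      refine lt_of_lt_of_le (h i0 hi0).1 (le_trans ?_ ht)
      exact Finset.single_le_sum (fun i _ => hB i) (Finset.mem_univ i0)
    refine ⟨?_, fun _ => htpos⟩
    have key : ∀ i, A i * l i ≤ A i * (Real.log t - Real.log s) + (B i * s / t - A i) := by
      intro i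
      rcases (hA i).eq_or_lt with hi | hi
      · rw [← hi]
        have : 0 ≤ B i * s / t := by have := hB i; positivity
        simp; exact this
      · obtain ⟨hBi, hl⟩ := h i hi
        have h1 : Real.log (B i * s / (A i * t)) ≤ B i * s / (A i * t) - 1 :=
          Real.log_le_sub_one_of_pos (by positivity)
        rw [Real.log_div (by positivity) (by positivity), Real.log_mul hBi.ne' hspos.ne',
          Real.log_mul hi.ne' htpos.ne'] at h1
        have h2 : A i * (B i * s / (A i * t) - 1) = B i * s / t - A i := by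
          field_simp
        have h3 := mul_le_mul_of_nonneg_left h1 hi.le
        have h4 := mul_le_mul_of_nonneg_left hl hi.le
        rw [h2] at h3
        nlinarith
    calc ∑ i, A i * l i ≤ ∑ i, (A i * (Real.log t - Real.log s) + (B i * s / t - A i)) :=
          Finset.sum_le_sum fun i _ => key i
      _ = s * (Real.log t - Real.log s) + ((∑ i, B i) * s / t - s) := by
          rw [Finset.sum_add_distrib, Finset.sum_sub_distrib, ← Finset.sum_mul, hs,
            ← Finset.sum_div, ← Finset.sum_mul]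
      _ ≤ s * (Real.log t - Real.log s) := by
          have : (∑ i, B i) * s / t ≤ s := by
            rw [div_le_iff₀ htpos]; nlinarith
          linarith
  · push Not at h0
    have hz : ∀ i, A i = 0 := fun i => le_antisymm (h0 i) (hA i)
    have : s = 0 := by rw [← hs]; simp [hz]
    simp [hz, this]

variable {Ω : Type} [Fintype Ω]

/-- the data of a symmetric nonnegative function of three variables -/
structure Sym3 (Ω : Type) where
  W : Ω → Ω → Ω → ℝ
  nonneg : ∀ x y z, 0 ≤ W x y z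
  s12 : ∀ x y z, W x y z = W y x z
  s23 : ∀ x y z, W x y z = W x z y

namespace Sym3

variable (T : Sym3 Ω)

noncomputable def U (x y : Ω) : ℝ := ∑ z, T.W x y z
noncomputable def d (x : Ω) : ℝ := ∑ y, T.U x y
noncomputable def N : ℝ := ∑ x, T.d x
noncomputable def M2 (y q : Ω) : ℝ := ∑ w, T.U y w * (T.d w)⁻¹ * T.U w q
noncomputable def M3 (x q : Ω) : ℝ := ∑ y, T.U x y * (T.d y)⁻¹ * T.M2 y q
noncomputable def S2 (y q : Ω) : ℝ := ∑ w, T.U y w * T.U w q
noncomputable def S3 (x q : Ω) : ℝ := ∑ y, T.U x y * T.S2 y q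
noncomputable def R (v x q : Ω) : ℝ := ∑ y, T.W v x y * (T.d y)⁻¹ * T.M2 y q

theorem U_nonneg (x y : Ω) : 0 ≤ T.U x y := Finset.sum_nonneg fun z _ => T.nonneg x y z
theorem d_nonneg (x : Ω) : 0 ≤ T.d x := Finset.sum_nonneg fun y _ => T.U_nonneg x y
theorem U_symm (x y : Ω) : T.U x y = T.U y x := by
  unfold U; exact Finset.sum_congr rfl fun z _ => T.s12 x y z
theorem M2_nonneg (x y : Ω) : 0 ≤ T.M2 x y := Finset.sum_nonneg fun w _ => by
  have := T.U_nonneg x w; have := T.U_nonneg w y; have := T.d_nonneg w; positivity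
theorem M3_nonneg (x y : Ω) : 0 ≤ T.M3 x y := Finset.sum_nonneg fun w _ => by
  have := T.U_nonneg x w; have := T.M2_nonneg w y; have := T.d_nonneg w; positivity
theorem S2_nonneg (x y : Ω) : 0 ≤ T.S2 x y := Finset.sum_nonneg fun w _ => by
  have := T.U_nonneg x w; have := T.U_nonneg w y; positivity
theorem S3_nonneg (x y : Ω) : 0 ≤ T.S3 x y := Finset.sum_nonneg fun w _ => by
  have := T.U_nonneg x w; have := T.S2_nonneg w y; positivity
theorem R_nonneg (v x q : Ω) : 0 ≤ T.R v x q := Finset.sum_nonneg fun w _ => by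
  have := T.nonneg v x w; have := T.M2_nonneg w q; have := T.d_nonneg w; positivity

theorem U_le_d (x y : Ω) : T.U x y ≤ T.d x :=
  Finset.single_le_sum (f := fun y => T.U x y) (fun y _ => T.U_nonneg x y) (Finset.mem_univ y)

theorem sum_U_left (y : Ω) : ∑ x, T.U x y = T.d y := by
  unfold d; exact Finset.sum_congr rfl fun x _ => T.U_symm x y

theorem U_mul_inv_mul (x y : Ω) : T.U x y * (T.d y)⁻¹ * T.d y = T.U x y := by
  rcases (T.d_nonneg y).eq_or_lt with h | h
  · have h1 := T.U_le_d y x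
    have h2 := T.U_nonneg y x
    have : T.U x y = 0 := by rw [T.U_symm]; linarith
    simp [this]
  · field_simp

theorem sum_M2 (y : Ω) : ∑ q, T.M2 y q = T.d y := by
  unfold M2
  rw [Finset.sum_comm]
  unfold d
  refine Finset.sum_congr rfl fun w _ => ?_
  rw [← Finset.mul_sum]
  exact T.U_mul_inv_mul y w

theorem M2_le_d (y q : Ω) : T.M2 y q ≤ T.d y := by
  rw [← T.sum_M2]
  exact Finset.single_le_sum (f := fun q => T.M2 y q) (fun q _ => T.M2_nonneg y q)
    (Finset.mem_univ q)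

theorem d_mul_inv_mul (y q : Ω) : T.d y * (T.d y)⁻¹ * T.M2 y q = T.M2 y q := by
  rcases (T.d_nonneg y).eq_or_lt with h | h
  · have h1 := T.M2_le_d y q
    have h2 := T.M2_nonneg y q
    have : T.M2 y q = 0 := by linarith
    simp [this]
  · field_simp

theorem sum_M3 (x : Ω) : ∑ q, T.M3 x q = T.d x := by
  unfold M3
  rw [Finset.sum_comm]
  unfold d
  refine Finset.sum_congr rfl fun w _ => ?_
  rw [← Finset.mul_sum, T.sum_M2]
  exact T.U_mul_inv_mul x w

theorem sum_R_mid (v q : Ω) : ∑ x, T.R v x q = T.M3 v q := by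
  unfold R M3
  rw [Finset.sum_comm]
  refine Finset.sum_congr rfl fun y _ => ?_
  rw [← Finset.sum_mul, ← Finset.sum_mul]
  congr 2
  unfold U
  exact Finset.sum_congr rfl fun x _ => T.s23 v x y

theorem R_symm (v x q : Ω) : T.R v x q = T.R x v q := by
  unfold R; exact Finset.sum_congr rfl fun y _ => by rw [T.s12]

theorem R_le_M3 (v x q : Ω) : T.R v x q ≤ T.M3 v q := by
  rw [← T.sum_R_mid]
  exact Finset.single_le_sum (f := fun x => T.R v x q) (fun x _ => T.R_nonneg v x q)
    (Finset.mem_univ x)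

noncomputable def Lam : ℝ := ∑ x, T.d x * Real.log (T.d x)
noncomputable def H2 : ℝ := ∑ y, ∑ q, T.M2 y q * Real.log (T.M2 y q)
noncomputable def H3 : ℝ := ∑ y, ∑ q, T.M3 y q * Real.log (T.M3 y q)
noncomputable def K2 : ℝ := ∑ y, ∑ q, T.M2 y q * Real.log (T.S2 y q)
noncomputable def K3 : ℝ := ∑ y, ∑ q, T.M3 y q * Real.log (T.S3 y q)

theorem stepA2_pt (y q : Ω) :
    ∑ w, T.U y w * (T.d w)⁻¹ * T.U w q * Real.log (T.d w) ≤
      T.M2 y q * (Real.log (T.S2 y q) - Real.log (T.M2 y q)) ∧ (0 < T.M2 y q → 0 < T.S2 y q) := by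
  refine gibbs (fun w => T.U y w * (T.d w)⁻¹ * T.U w q) (fun w => T.U y w * T.U w q)
    (fun w => Real.log (T.d w)) _ _ ?_ ?_ ?_ rfl le_rfl
  · intro w
    have := T.U_nonneg y w; have := T.U_nonneg w q; have := T.d_nonneg w; positivity
  · intro w
    have := T.U_nonneg y w; have := T.U_nonneg w q; positivity
  · intro w hw
    have h1 : T.U y w ≠ 0 := by intro h; simp [h] at hw
    have h2 : T.U w q ≠ 0 := by intro h; simp [h] at hw
    have h3 : T.d w ≠ 0 := by intro h; simp [h] at hw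
    have h1' := lt_of_le_of_ne (T.U_nonneg y w) h1.symm
    have h2' := lt_of_le_of_ne (T.U_nonneg w q) h2.symm
    refine ⟨by positivity, le_of_eq ?_⟩
    rw [Real.log_mul h1 h2, Real.log_mul (mul_ne_zero h1 (inv_ne_zero h3)) h2,
      Real.log_mul h1 (inv_ne_zero h3), Real.log_inv]
    ring

theorem stepA2 : T.Lam ≤ T.K2 - T.H2 := by
  have h : ∑ y, ∑ q, ∑ w, T.U y w * (T.d w)⁻¹ * T.U w q * Real.log (T.d w) ≤
      ∑ y, ∑ q, T.M2 y q * (Real.log (T.S2 y q) - Real.log (T.M2 y q)) :=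
    Finset.sum_le_sum fun y _ => Finset.sum_le_sum fun q _ => (T.stepA2_pt y q).1
  have e1 : ∑ y, ∑ q, ∑ w, T.U y w * (T.d w)⁻¹ * T.U w q * Real.log (T.d w) = T.Lam := by
    have : ∀ y, ∑ q, ∑ w, T.U y w * (T.d w)⁻¹ * T.U w q * Real.log (T.d w)
        = ∑ w, T.U y w * Real.log (T.d w) := by
      intro y
      rw [Finset.sum_comm]
      refine Finset.sum_congr rfl fun w _ => ?_
      rw [← Finset.sum_mul, ← Finset.mul_sum]
      congr 1
      exact T.U_mul_inv_mul y w
    simp only [this]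
    rw [Finset.sum_comm]
    unfold Lam
    refine Finset.sum_congr rfl fun w _ => ?_
    rw [← Finset.sum_mul, T.sum_U_left]
  have e2 : ∑ y, ∑ q, T.M2 y q * (Real.log (T.S2 y q) - Real.log (T.M2 y q)) = T.K2 - T.H2 := by
    unfold K2 H2
    simp only [mul_sub, Finset.sum_sub_distrib]
  linarith

theorem stepA3_pt (x q : Ω) :
    ∑ y, T.U x y * (T.d y)⁻¹ * T.M2 y q *
        (Real.log (T.d y) + Real.log (T.S2 y q) - Real.log (T.M2 y q)) ≤
      T.M3 x q * (Real.log (T.S3 x q) - Real.log (T.M3 x q)) ∧ (0 < T.M3 x q → 0 < T.S3 x q) := by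
  refine gibbs (fun y => T.U x y * (T.d y)⁻¹ * T.M2 y q) (fun y => T.U x y * T.S2 y q)
    (fun y => Real.log (T.d y) + Real.log (T.S2 y q) - Real.log (T.M2 y q)) _ _ ?_ ?_ ?_ rfl le_rfl
  · intro w
    have := T.U_nonneg x w; have := T.M2_nonneg w q; have := T.d_nonneg w; positivity
  · intro w
    have := T.U_nonneg x w; have := T.S2_nonneg w q; positivity
  · intro w hw
    have h1 : T.U x w ≠ 0 := by intro h; simp [h] at hw
    have h2 : T.M2 w q ≠ 0 := by intro h; simp [h] at hw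
    have h3 : T.d w ≠ 0 := by intro h; simp [h] at hw
    have h1' := lt_of_le_of_ne (T.U_nonneg x w) h1.symm
    have h2' := lt_of_le_of_ne (T.M2_nonneg w q) h2.symm
    have h4 := (T.stepA2_pt w q).2 h2'
    refine ⟨by positivity, le_of_eq ?_⟩
    rw [Real.log_mul h1 h4.ne', Real.log_mul (mul_ne_zero h1 (inv_ne_zero h3)) h2,
      Real.log_mul h1 (inv_ne_zero h3), Real.log_inv]
    ring

/-- marginalising the first step of the chain -/
theorem marg1 (f : Ω → Ω → ℝ) :
    ∑ x, ∑ q, ∑ y, T.U x y * (T.d y)⁻¹ * T.M2 y q * f y q = ∑ y, ∑ q, T.M2 y q * f y q := by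
  calc ∑ x, ∑ q, ∑ y, T.U x y * (T.d y)⁻¹ * T.M2 y q * f y q
      = ∑ q, ∑ x, ∑ y, T.U x y * (T.d y)⁻¹ * T.M2 y q * f y q := Finset.sum_comm
    _ = ∑ q, ∑ y, ∑ x, T.U x y * (T.d y)⁻¹ * T.M2 y q * f y q :=
        Finset.sum_congr rfl fun q _ => Finset.sum_comm
    _ = ∑ q, ∑ y, T.M2 y q * f y q := by
        refine Finset.sum_congr rfl fun q _ => Finset.sum_congr rfl fun y _ => ?_
        rw [← Finset.sum_mul, ← Finset.sum_mul, ← Finset.sum_mul, T.sum_U_left, T.d_mul_inv_mul]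
    _ = ∑ y, ∑ q, T.M2 y q * f y q := Finset.sum_comm

theorem sum_M2_log_d : ∑ y, ∑ q, T.M2 y q * Real.log (T.d y) = T.Lam := by
  unfold Lam
  refine Finset.sum_congr rfl fun y _ => ?_
  rw [← Finset.sum_mul, T.sum_M2]

theorem stepA3 : 2 * T.Lam ≤ T.K3 - T.H3 := by
  have h : ∑ x, ∑ q, ∑ y, T.U x y * (T.d y)⁻¹ * T.M2 y q *
        (Real.log (T.d y) + Real.log (T.S2 y q) - Real.log (T.M2 y q)) ≤
      ∑ x, ∑ q, T.M3 x q * (Real.log (T.S3 x q) - Real.log (T.M3 x q)) :=
    Finset.sum_le_sum fun y _ => Finset.sum_le_sum fun q _ => (T.stepA3_pt y q).1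
  rw [T.marg1 (fun y q => Real.log (T.d y) + Real.log (T.S2 y q) - Real.log (T.M2 y q))] at h
  have e2 : ∑ y, ∑ q, T.M3 y q * (Real.log (T.S3 y q) - Real.log (T.M3 y q)) = T.K3 - T.H3 := by
    unfold K3 H3
    simp only [mul_sub, Finset.sum_sub_distrib]
  have e1 : ∑ y, ∑ q, T.M2 y q * (Real.log (T.d y) + Real.log (T.S2 y q) - Real.log (T.M2 y q))
      = T.Lam + T.K2 - T.H2 := by
    rw [← T.sum_M2_log_d]
    unfold K2 H2
    simp only [mul_sub, mul_add, Finset.sum_sub_distrib, Finset.sum_add_distrib]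
  have := T.stepA2
  linarith

theorem stepE2 : -T.Lam ≤ T.N * (Real.log (Fintype.card Ω : ℝ) - Real.log T.N) := by
  have h := (gibbs (fun x => T.d x) (fun _ => (1 : ℝ)) (fun x => -Real.log (T.d x)) T.N
    (Fintype.card Ω : ℝ) T.d_nonneg (fun _ => zero_le_one)
    (fun x _ => ⟨one_pos, by simp⟩) rfl (by simp)).1
  unfold Lam
  simpa using h

theorem stepE1 : -T.H3 ≤ T.N * (Real.log ((Fintype.card Ω : ℝ) ^ 2) - Real.log T.N) := by
  have h := (gibbs (fun p : Ω × Ω => T.M3 p.1 p.2) (fun _ => (1 : ℝ))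
    (fun p => -Real.log (T.M3 p.1 p.2)) T.N
    ((Fintype.card Ω : ℝ) ^ 2) (fun p => T.M3_nonneg _ _) (fun _ => zero_le_one)
    (fun x _ => ⟨one_pos, by simp⟩)
    (by rw [Fintype.sum_prod_type]; unfold N; exact Finset.sum_congr rfl fun x _ => T.sum_M3 x)
    (by simp [sq])).1
  unfold H3
  rw [Fintype.sum_prod_type] at h
  simpa using h

end Sym3

end Pool.Agent.P.MP_cfb0df_co
end

-- part Pool.Agent.P.MP_cfb0df_co.Theta
section

set_option autoImplicit false

open Finset

namespace Pool.Agent.P.MP_cfb0df_co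

variable {Ω : Type} [Fintype Ω]

namespace Sym3

variable (T : Sym3 Ω)

noncomputable def G1 : ℝ := ∑ v, ∑ x, ∑ q, T.R v x q * (Real.log (T.U v x) - Real.log (T.R v x q))

theorem W_le_U (v x y : Ω) : T.W v x y ≤ T.U v x :=
  Finset.single_le_sum (f := fun y => T.W v x y) (fun y _ => T.nonneg v x y) (Finset.mem_univ y)

theorem sum_R_all : ∑ v, ∑ x, ∑ q, T.R v x q = T.N := by
  unfold N
  refine Finset.sum_congr rfl fun v _ => ?_
  rw [Finset.sum_comm, ← T.sum_M3]
  exact Finset.sum_congr rfl fun q _ => T.sum_R_mid v q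

/-- marginal of the law of `(v, x, y, q)` on `(y, q)` -/
theorem margD (f : Ω → Ω → ℝ) :
    ∑ v, ∑ x, ∑ q, ∑ y, T.W v x y * (T.d y)⁻¹ * T.M2 y q * f y q = ∑ y, ∑ q, T.M2 y q * f y q := by
  rw [← T.marg1 f]
  refine Finset.sum_congr rfl fun v _ => ?_
  rw [Finset.sum_comm]
  refine Finset.sum_congr rfl fun q _ => ?_
  rw [Finset.sum_comm]
  refine Finset.sum_congr rfl fun y _ => ?_
  rw [← Finset.sum_mul, ← Finset.sum_mul, ← Finset.sum_mul]
  congr 3
  unfold U
  exact Finset.sum_congr rfl fun x _ => T.s23 v x y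

theorem stepD : T.Lam - T.H2 ≤ T.G1 := by
  have h := (gibbs (fun p : Ω × Ω × Ω × Ω => T.W p.1 p.2.1 p.2.2.2 * (T.d p.2.2.2)⁻¹ * T.M2 p.2.2.2 p.2.2.1)
    (fun p => T.W p.1 p.2.1 p.2.2.2 * (T.U p.1 p.2.1)⁻¹ * T.R p.1 p.2.1 p.2.2.1)
    (fun p => (Real.log (T.d p.2.2.2) - Real.log (T.M2 p.2.2.2 p.2.2.1)) -
      (Real.log (T.U p.1 p.2.1) - Real.log (T.R p.1 p.2.1 p.2.2.1))) T.N T.N ?_ ?_ ?_ ?_ ?_).1
  · simp only [Fintype.sum_prod_type, sub_self, mul_zero] at h
    have e1 : ∑ v, ∑ x, ∑ q, ∑ y, T.W v x y * (T.d y)⁻¹ * T.M2 y q *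
        (Real.log (T.d y) - Real.log (T.M2 y q)) = T.Lam - T.H2 := by
      rw [T.margD (fun y q => Real.log (T.d y) - Real.log (T.M2 y q)), ← T.sum_M2_log_d]
      unfold H2
      simp only [mul_sub, Finset.sum_sub_distrib]
    have e2 : ∑ v, ∑ x, ∑ q, ∑ y, T.W v x y * (T.d y)⁻¹ * T.M2 y q *
        (Real.log (T.U v x) - Real.log (T.R v x q)) = T.G1 := by
      unfold G1
      refine Finset.sum_congr rfl fun v _ => Finset.sum_congr rfl fun x _ =>
        Finset.sum_congr rfl fun q _ => ?_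
      rw [← Finset.sum_mul]
      rfl
    rw [← e1, ← e2]
    simp only [mul_sub (_ * _ * _) (_ - _) (_ - _), Finset.sum_sub_distrib] at h
    linarith
  · rintro ⟨v, x, q, y⟩
    have := T.nonneg v x y; have := T.M2_nonneg y q; have := T.d_nonneg y
    positivity
  · rintro ⟨v, x, q, y⟩
    have := T.nonneg v x y; have := T.R_nonneg v x q; have := T.U_nonneg v x
    positivity
  · rintro ⟨v, x, q, y⟩ hw
    simp only at hw ⊢
    have h1 : T.W v x y ≠ 0 := by intro h; simp [h] at hw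
    have h2 : T.M2 y q ≠ 0 := by intro h; simp [h] at hw
    have h3 : T.d y ≠ 0 := by intro h; simp [h] at hw
    have h1' := lt_of_le_of_ne (T.nonneg v x y) h1.symm
    have h4 : 0 < T.U v x := lt_of_lt_of_le h1' (T.W_le_U v x y)
    have h5 : 0 < T.R v x q := lt_of_lt_of_le hw
      (Finset.single_le_sum (f := fun y => T.W v x y * (T.d y)⁻¹ * T.M2 y q) (fun y _ => by
        have := T.nonneg v x y; have := T.M2_nonneg y q; have := T.d_nonneg y
        positivity) (Finset.mem_univ y))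
    refine ⟨by positivity, le_of_eq ?_⟩
    rw [Real.log_mul (mul_ne_zero h1 (inv_ne_zero h4.ne')) h5.ne',
      Real.log_mul h1 (inv_ne_zero h4.ne'),
      Real.log_mul (mul_ne_zero h1 (inv_ne_zero h3)) h2,
      Real.log_mul h1 (inv_ne_zero h3), Real.log_inv, Real.log_inv]
    ring
  · simp only [Fintype.sum_prod_type]
    exact T.sum_R_all
  · simp only [Fintype.sum_prod_type]
    rw [← T.sum_R_all]
    refine Finset.sum_le_sum fun v _ => Finset.sum_le_sum fun x _ =>
      Finset.sum_le_sum fun q _ => ?_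
    rw [← Finset.sum_mul, ← Finset.sum_mul]
    have h1 : (∑ y, T.W v x y) * (T.U v x)⁻¹ ≤ 1 := mul_inv_le_one
    have := T.R_nonneg v x q
    nlinarith

/-- homomorphism count of the theta graph with paths of lengths 2, 2, 5 -/
noncomputable def hom : ℝ :=
  ∑ y, ∑ q, ∑ v, ∑ x, T.S2 y q * T.S2 y q * T.U v y * T.U v x * T.S3 x q

noncomputable def rho (y q v x : Ω) : ℝ :=
  T.U v y * (T.d y)⁻¹ * T.M2 y q * ((T.M3 v q)⁻¹ * T.R v x q)

theorem term_le_M3 (v y q : Ω) : T.U v y * (T.d y)⁻¹ * T.M2 y q ≤ T.M3 v q :=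
  Finset.single_le_sum (f := fun y => T.U v y * (T.d y)⁻¹ * T.M2 y q) (fun y _ => by
    have := T.U_nonneg v y; have := T.M2_nonneg y q; have := T.d_nonneg y
    positivity) (Finset.mem_univ y)

theorem rho_sum_x (y q v : Ω) : ∑ x, T.rho y q v x = T.U v y * (T.d y)⁻¹ * T.M2 y q := by
  unfold rho
  rw [← Finset.mul_sum, ← Finset.mul_sum, T.sum_R_mid]
  rcases (T.M3_nonneg v q).eq_or_lt with h | h
  · have h1 := T.term_le_M3 v y q
    have h2 : 0 ≤ T.U v y * (T.d y)⁻¹ * T.M2 y q := by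
      have := T.U_nonneg v y; have := T.M2_nonneg y q; have := T.d_nonneg y
      positivity
    have : T.U v y * (T.d y)⁻¹ * T.M2 y q = 0 := by linarith
    rw [this]; simp
  · rw [inv_mul_cancel₀ h.ne', mul_one]

theorem rho_sum_y (q v x : Ω) : ∑ y, T.rho y q v x = T.R v x q := by
  unfold rho
  rw [← Finset.sum_mul]
  change T.M3 v q * _ = _
  rcases (T.M3_nonneg v q).eq_or_lt with h | h
  · have h1 := T.R_le_M3 v x q
    have h2 := T.R_nonneg v x q
    have : T.R v x q = 0 := by linarith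
    rw [this]; simp
  · field_simp

theorem margC1 (f : Ω → Ω → ℝ) :
    ∑ y, ∑ q, ∑ v, ∑ x, T.rho y q v x * f y q = ∑ y, ∑ q, T.M2 y q * f y q := by
  refine Finset.sum_congr rfl fun y _ => Finset.sum_congr rfl fun q _ => ?_
  simp only [← Finset.sum_mul, T.rho_sum_x]
  rw [T.sum_U_left, T.d_mul_inv_mul]

theorem margC2 (g : Ω → Ω → Ω → ℝ) :
    ∑ y, ∑ q, ∑ v, ∑ x, T.rho y q v x * g v x q = ∑ v, ∑ x, ∑ q, T.R v x q * g v x q := by
  calc ∑ y, ∑ q, ∑ v, ∑ x, T.rho y q v x * g v x q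
      = ∑ q, ∑ y, ∑ v, ∑ x, T.rho y q v x * g v x q := Finset.sum_comm
    _ = ∑ q, ∑ v, ∑ y, ∑ x, T.rho y q v x * g v x q :=
        Finset.sum_congr rfl fun q _ => Finset.sum_comm
    _ = ∑ q, ∑ v, ∑ x, ∑ y, T.rho y q v x * g v x q :=
        Finset.sum_congr rfl fun q _ => Finset.sum_congr rfl fun v _ => Finset.sum_comm
    _ = ∑ q, ∑ v, ∑ x, T.R v x q * g v x q := by
        simp only [← Finset.sum_mul, T.rho_sum_y]
    _ = ∑ v, ∑ q, ∑ x, T.R v x q * g v x q := Finset.sum_comm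
    _ = ∑ v, ∑ x, ∑ q, T.R v x q * g v x q :=
        Finset.sum_congr rfl fun v _ => Finset.sum_comm

theorem margR1 (f : Ω → Ω → ℝ) :
    ∑ v, ∑ x, ∑ q, T.R v x q * f v q = ∑ v, ∑ q, T.M3 v q * f v q := by
  refine Finset.sum_congr rfl fun v _ => ?_
  rw [Finset.sum_comm]
  refine Finset.sum_congr rfl fun q _ => ?_
  rw [← Finset.sum_mul, T.sum_R_mid]

theorem margR2 (f : Ω → Ω → ℝ) :
    ∑ v, ∑ x, ∑ q, T.R v x q * f x q = ∑ v, ∑ q, T.M3 v q * f v q := by
  rw [Finset.sum_comm, ← T.margR1 f]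
  refine Finset.sum_congr rfl fun v _ => Finset.sum_congr rfl fun x _ =>
    Finset.sum_congr rfl fun q _ => ?_
  rw [T.R_symm]

theorem stepC : 2 * T.K2 - T.H2 + T.Lam + T.G1 + T.K3 + T.H3 ≤
    T.N * (Real.log T.hom - Real.log T.N) ∧ (0 < T.N → 0 < T.hom) := by
  have h := (gibbs (fun p : Ω × Ω × Ω × Ω => T.rho p.1 p.2.1 p.2.2.1 p.2.2.2)
    (fun p => T.S2 p.1 p.2.1 * T.S2 p.1 p.2.1 * T.U p.2.2.1 p.1 * T.U p.2.2.1 p.2.2.2 *
      T.S3 p.2.2.2 p.2.1)
    (fun p => (2 * Real.log (T.S2 p.1 p.2.1) - Real.log (T.M2 p.1 p.2.1) + Real.log (T.d p.1)) +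
      ((Real.log (T.U p.2.2.1 p.2.2.2) - Real.log (T.R p.2.2.1 p.2.2.2 p.2.1)) +
        Real.log (T.S3 p.2.2.2 p.2.1) + Real.log (T.M3 p.2.2.1 p.2.1))) T.N T.hom ?_ ?_ ?_ ?_ ?_)
  · refine ⟨?_, h.2⟩
    have h1 := h.1
    simp only [Fintype.sum_prod_type] at h1
    have e1 : ∑ y, ∑ q, ∑ v, ∑ x, T.rho y q v x *
        (2 * Real.log (T.S2 y q) - Real.log (T.M2 y q) + Real.log (T.d y))
        = 2 * T.K2 - T.H2 + T.Lam := by
      rw [T.margC1 (fun y q => 2 * Real.log (T.S2 y q) - Real.log (T.M2 y q) + Real.log (T.d y)),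
        ← T.sum_M2_log_d]
      unfold K2 H2
      simp only [Finset.mul_sum, ← Finset.sum_sub_distrib, ← Finset.sum_add_distrib]
      refine Finset.sum_congr rfl fun y _ => Finset.sum_congr rfl fun q _ => ?_
      ring
    have e2 : ∑ y, ∑ q, ∑ v, ∑ x, T.rho y q v x *
        ((Real.log (T.U v x) - Real.log (T.R v x q)) +
          Real.log (T.S3 x q) + Real.log (T.M3 v q)) = T.G1 + T.K3 + T.H3 := by
      rw [T.margC2 (fun v x q => (Real.log (T.U v x) - Real.log (T.R v x q)) +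
          Real.log (T.S3 x q) + Real.log (T.M3 v q))]
      unfold G1 K3 H3
      rw [← T.margR2 (fun x q => Real.log (T.S3 x q)), ← T.margR1 (fun x q => Real.log (T.M3 x q))]
      simp only [← Finset.sum_add_distrib]
      refine Finset.sum_congr rfl fun v _ => Finset.sum_congr rfl fun x _ =>
        Finset.sum_congr rfl fun q _ => ?_
      ring
    simp only [mul_add (T.rho _ _ _ _) (_ + _) (_ + _), Finset.sum_add_distrib] at h1
    rw [e1, e2] at h1
    linarith
  · rintro ⟨y, q, v, x⟩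
    have := T.U_nonneg v y; have := T.M2_nonneg y q; have := T.d_nonneg y
    have := T.M3_nonneg v q; have := T.R_nonneg v x q
    unfold rho
    positivity
  · rintro ⟨y, q, v, x⟩
    have := T.U_nonneg v y; have := T.S2_nonneg y q; have := T.U_nonneg v x
    have := T.S3_nonneg x q
    positivity
  · rintro ⟨y, q, v, x⟩ hw
    simp only [rho] at hw ⊢
    have h1 : T.U v y ≠ 0 := by intro h; simp [h] at hw
    have h2 : T.M2 y q ≠ 0 := by intro h; simp [h] at hw
    have h3 : T.d y ≠ 0 := by intro h; simp [h] at hw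
    have h4 : T.M3 v q ≠ 0 := by intro h; simp [h] at hw
    have h5 : T.R v x q ≠ 0 := by intro h; simp [h] at hw
    have h1' := lt_of_le_of_ne (T.U_nonneg v y) h1.symm
    have h2' := lt_of_le_of_ne (T.M2_nonneg y q) h2.symm
    have h5' := lt_of_le_of_ne (T.R_nonneg v x q) h5.symm
    have h6 : 0 < T.S2 y q := (T.stepA2_pt y q).2 h2'
    have h7 : 0 < T.S3 x q := by
      refine (T.stepA3_pt x q).2 (lt_of_lt_of_le h5' ?_)
      rw [T.R_symm]; exact T.R_le_M3 x v q
    have h8 : 0 < T.U v x := by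
      rcases (T.U_nonneg v x).eq_or_lt with h | h
      · exfalso
        apply h5
        unfold R
        refine Finset.sum_eq_zero fun z _ => ?_
        have a1 := T.W_le_U v x z
        have a2 := T.nonneg v x z
        have : T.W v x z = 0 := by linarith
        simp [this]
      · exact h
    refine ⟨by positivity, le_of_eq ?_⟩
    rw [Real.log_mul (by positivity) h7.ne', Real.log_mul (by positivity) h8.ne',
      Real.log_mul (by positivity) h1, Real.log_mul h6.ne' h6.ne',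
      Real.log_mul (mul_ne_zero (mul_ne_zero h1 (inv_ne_zero h3)) h2)
        (mul_ne_zero (inv_ne_zero h4) h5),
      Real.log_mul (mul_ne_zero h1 (inv_ne_zero h3)) h2, Real.log_mul h1 (inv_ne_zero h3),
      Real.log_mul (inv_ne_zero h4) h5, Real.log_inv, Real.log_inv]
    ring
  · simp only [Fintype.sum_prod_type]
    have := T.margC1 (fun _ _ => 1)
    simp only [mul_one] at this
    rw [this]
    unfold N
    exact Finset.sum_congr rfl fun y _ => T.sum_M2 y
  · simp only [Fintype.sum_prod_type]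
    exact le_rfl

theorem hom_nonneg : 0 ≤ T.hom := by
  unfold hom
  refine Finset.sum_nonneg fun y _ => Finset.sum_nonneg fun q _ => Finset.sum_nonneg fun v _ =>
    Finset.sum_nonneg fun x _ => ?_
  have := T.U_nonneg v y; have := T.S2_nonneg y q; have := T.U_nonneg v x
  have := T.S3_nonneg x q
  positivity

theorem N_nonneg : 0 ≤ T.N := Finset.sum_nonneg fun x _ => T.d_nonneg x

theorem main_ineq (hn : 0 < Fintype.card Ω) :
    T.N ^ 9 ≤ T.hom * (Fintype.card Ω : ℝ) ^ 10 := by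
  have hn' : (0 : ℝ) < Fintype.card Ω := by exact_mod_cast hn
  rcases T.N_nonneg.eq_or_lt with h | h
  · rw [← h]
    have := T.hom_nonneg
    simp only [ne_eq, OfNat.ofNat_ne_zero, not_false_eq_true, zero_pow]
    positivity
  · obtain ⟨c1, c2⟩ := T.stepC
    have hh := c2 h
    have a2 := T.stepA2
    have a3 := T.stepA3
    have d1 := T.stepD
    have e1 := T.stepE1
    have e2 := T.stepE2
    rw [Real.log_pow] at e1
    have key : T.N * (9 * Real.log T.N) ≤
        T.N * (Real.log T.hom + 10 * Real.log (Fintype.card Ω : ℝ)) := by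
      push_cast at e1
      nlinarith
    have key2 := le_of_mul_le_mul_left key h
    rw [← Real.log_le_log_iff (by positivity) (by positivity), Real.log_mul hh.ne' (by positivity),
      Real.log_pow, Real.log_pow]
    push_cast
    exact key2

end Sym3

end Pool.Agent.P.MP_cfb0df_co
end

-- part Pool.Agent.P.MP_cfb0df_co.Count
section

set_option autoImplicit false

open Finset

namespace Pool.Agent.P.MP_cfb0df_co

theorem sum_fun_succ {Ω : Type} [Fintype Ω] {k : ℕ} (F : (Fin (k + 1) → Ω) → ℝ) :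
    ∑ g, F g = ∑ x, ∑ g : Fin k → Ω, F (Fin.cons x g) := by
  rw [← Fintype.sum_prod_type']
  exact (Fintype.sum_equiv (Fin.consEquiv fun _ => Ω) _ _ (fun _ => rfl)).symm

/-- first endpoints of the nine edges -/
def eu : Fin 9 → Fin 8 := ![0, 4, 0, 5, 2, 2, 3, 6, 7]
/-- second endpoints of the nine edges -/
def ev : Fin 9 → Fin 8 := ![4, 1, 5, 1, 0, 3, 6, 7, 1]

theorem sum_theta {Ω : Type} [Fintype Ω] (T : Sym3 Ω) :
    ∑ g : Fin 8 → Ω, ∏ i : Fin 9, T.U (g (eu i)) (g (ev i)) = T.hom := by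
  simp only [sum_fun_succ, Fin.prod_univ_succ, eu, ev]
  simp only [Finset.univ_unique, Finset.sum_singleton, Fin.prod_univ_zero]
  unfold Sym3.hom Sym3.S3 Sym3.S2
  refine Finset.sum_congr rfl fun y _ => Finset.sum_congr rfl fun q _ =>
    Finset.sum_congr rfl fun v _ => Finset.sum_congr rfl fun x _ => ?_
  simp only [Finset.sum_mul, Finset.mul_sum]
  symm
  calc _ = ∑ a, ∑ b, ∑ w', ∑ w, T.U y w * T.U w q * (T.U y w' * T.U w' q) * T.U v y * T.U v x *
        (T.U x a * (T.U a b * T.U b q)) := rfl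
    _ = ∑ a, ∑ w', ∑ b, ∑ w, T.U y w * T.U w q * (T.U y w' * T.U w' q) * T.U v y * T.U v x *
        (T.U x a * (T.U a b * T.U b q)) := Finset.sum_congr rfl fun _ _ => Finset.sum_comm
    _ = ∑ w', ∑ a, ∑ b, ∑ w, T.U y w * T.U w q * (T.U y w' * T.U w' q) * T.U v y * T.U v x *
        (T.U x a * (T.U a b * T.U b q)) := Finset.sum_comm
    _ = ∑ w', ∑ a, ∑ w, ∑ b, T.U y w * T.U w q * (T.U y w' * T.U w' q) * T.U v y * T.U v x *
        (T.U x a * (T.U a b * T.U b q)) :=
        Finset.sum_congr rfl fun _ _ => Finset.sum_congr rfl fun _ _ => Finset.sum_comm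
    _ = ∑ w', ∑ w, ∑ a, ∑ b, T.U y w * T.U w q * (T.U y w' * T.U w' q) * T.U v y * T.U v x *
        (T.U x a * (T.U a b * T.U b q)) := Finset.sum_congr rfl fun _ _ => Finset.sum_comm
    _ = _ := by
        refine Finset.sum_congr rfl fun w _ => Finset.sum_congr rfl fun w' _ =>
          Finset.sum_congr rfl fun a _ => Finset.sum_congr rfl fun b _ => ?_
        change _ = T.U y w * (T.U w q * (T.U y w' * (T.U w' q * (T.U v y * (T.U v x *
          (T.U x a * (T.U a b * (T.U b q * 1))))))))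
        ring

/-- the indicator of a 3-graph -/
noncomputable def ind {n : ℕ} (G : Finset (Finset (Fin n))) : Sym3 (Fin n) where
  W x y z := if ({x, y, z} : Finset (Fin n)) ∈ G then 1 else 0
  nonneg x y z := by split_ifs <;> norm_num
  s12 x y z := by rw [Finset.insert_comm]
  s23 x y z := by rw [Finset.pair_comm y z]

theorem N_ge {n : ℕ} (G : Finset (Finset (Fin n))) (hG : ∀ g ∈ G, g.card = 3) :
    ((6 * G.card : ℕ) : ℝ) ≤ (ind G).N := by
  have e : (ind G).N = ∑ g ∈ G, ∑ p : Fin n × Fin n × Fin n,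
      if ({p.1, p.2.1, p.2.2} : Finset (Fin n)) = g then (1 : ℝ) else 0 := by
    rw [Finset.sum_comm]
    simp only [Finset.sum_ite_eq, Fintype.sum_prod_type]
    rfl
  rw [e]
  have : ((6 * G.card : ℕ) : ℝ) = ∑ g ∈ G, (6 : ℝ) := by simp [mul_comm]
  rw [this]
  refine Finset.sum_le_sum fun g hg => ?_
  obtain ⟨a, b, c, hab, hac, hbc, rfl⟩ := Finset.card_eq_three.1 (hG g hg)
  rw [Finset.sum_boole]
  have hsub : ({(a, b, c), (a, c, b), (b, a, c), (b, c, a), (c, a, b), (c, b, a)} :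
      Finset (Fin n × Fin n × Fin n)) ⊆
      Finset.univ.filter (fun p : Fin n × Fin n × Fin n =>
        ({p.1, p.2.1, p.2.2} : Finset (Fin n)) = {a, b, c}) := by
    intro p hp
    simp only [Finset.mem_insert, Finset.mem_singleton] at hp
    simp only [Finset.mem_filter, Finset.mem_univ, true_and]
    rcases hp with rfl | rfl | rfl | rfl | rfl | rfl <;> ext t <;> simp <;> tauto
  have hc : ({(a, b, c), (a, c, b), (b, a, c), (b, c, a), (c, a, b), (c, b, a)} :
      Finset (Fin n × Fin n × Fin n)).card = 6 := by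
    have hba := hab.symm
    have hca := hac.symm
    have hcb := hbc.symm
    rw [Finset.card_insert_of_notMem, Finset.card_insert_of_notMem, Finset.card_insert_of_notMem,
      Finset.card_insert_of_notMem, Finset.card_insert_of_notMem, Finset.card_singleton] <;>
      simp [*]
  have := Finset.card_le_card hsub
  rw [hc] at this
  exact_mod_cast this

theorem count_eq {n : ℕ} (G : Finset (Finset (Fin n))) :
    ((Finset.univ.filter
      (fun f : Fin 8 ⊕ (Fin 9 × Fin 1) → Fin n =>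
        ∀ i : Fin 9,
          ((({eu i, ev i} : Finset (Fin 8))).image (Sum.inl : Fin 8 → Fin 8 ⊕ (Fin 9 × Fin 1)) ∪
            (Finset.univ : Finset (Fin 1)).image
              (fun j : Fin 1 => (Sum.inr (i, j) : Fin 8 ⊕ (Fin 9 × Fin 1)))).image f ∈ G)).card : ℝ)
      = (ind G).hom := by
  rw [← sum_theta, ← Finset.sum_boole]
  rw [← (Equiv.sumArrowEquivProdArrow (Fin 8) (Fin 9 × Fin 1) (Fin n)).symm.sum_comp,
    Fintype.sum_prod_type]
  refine Finset.sum_congr rfl fun g _ => ?_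
  have e1 : ∏ i : Fin 9, (ind G).U (g (eu i)) (g (ev i)) =
      ∏ b : Fin 9 × Fin 1, ∑ z, (ind G).W (g (eu b.1)) (g (ev b.1)) z := by
    rw [Fintype.prod_prod_type]
    simp [Sym3.U]
  rw [e1, Fintype.prod_sum]
  refine Finset.sum_congr rfl fun h _ => ?_
  rw [Fintype.prod_prod_type]
  have : ∀ a b c : Fin n, ({a, b} ∪ {c} : Finset (Fin n)) = {a, b, c} := by
    intro a b c; ext t; simp
  simp only [ind, Finset.univ_unique, Finset.prod_singleton,
    Finset.image_singleton, Finset.image_insert, Finset.image_union, this]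
  rw [Finset.prod_boole]
  simp only [Finset.mem_univ, true_imp_iff]
  rfl

end Pool.Agent.P.MP_cfb0df_co
end
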